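import Pool.Agent.Lib.MP_a950c6_lc.Problem
import Pool.Agent.Lib.MP_a950c6_lc.Hard
import Pool.Agent.Lib.MP_a950c6_lc.Np

/-!
# ROLE ASSIGNMENT is NP-complete on interval graphs
-/

namespace Pool.Agent.Results.MP_a950c6_lc.NPComplete

open Pool.Agent.Lib.MP_a950c6_lc.Problem

/-- ROLE ASSIGNMENT restricted to input pairs `(G, R)` in which `G` is an interval graph is
NP-complete, and a polynomial-time algorithm for this restriction, even one which is only correct
for such pairs, would imply P = NP. -/
theorem result :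
    NPComplete roleInterval ∧
    (PolynomialAlgorithm → ∀ L : Set (List Bool), InNP L → InP L) :=
  ⟨⟨Pool.Agent.Lib.MP_a950c6_lc.roleInterval_np, Pool.Agent.Lib.MP_a950c6_lc.roleInterval_hard⟩,
    Pool.Agent.Lib.MP_a950c6_lc.poly_of_algorithm⟩

end Pool.Agent.Results.MP_a950c6_lc.NPComplete
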